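import Mathlib

/-! Abstract projective sets over a sequence of sets. -/

set_option autoImplicit false

namespace Pool.Agent.H13.ProjE

open Set

/-- `R_n`: the sigma-algebra on `E^n` generated by the boxes `A_{m_1} × ... × A_{m_n}`. -/
def boxAlg {E : Type} (A : ℕ → Set E) (n : ℕ) : MeasurableSpace (Fin n → E) :=
  MeasurableSpace.generateFrom
    {S : Set (Fin n → E) | ∃ m : Fin n → ℕ, S = {x : Fin n → E | ∀ i, x i ∈ A (m i)}}

/-- `pi_n : E^(n+1) → E^n` deletes the last coordinate. -/
def dropLast {E : Type} {n : ℕ} (x : Fin (n + 1) → E) : Fin n → E := fun i => x i.castSucc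

/-- `projClass A k n` is the family `P_(k+1)(E^n)` of projective sets of class `k + 1` in `E^n`:
`P_1(E^n)` consists of the projections of the sets of `R_(n+1)`, and `P_(k+2)(E^n)` of the
projections of the complements of the sets in `P_(k+1)(E^(n+1))`. -/
def projClass {E : Type} (A : ℕ → Set E) : ℕ → (n : ℕ) → Set (Set (Fin n → E))
  | 0, n => {T | ∃ S : Set (Fin (n + 1) → E), @MeasurableSet (Fin (n + 1) → E)
      (boxAlg A (n + 1)) S ∧ T = dropLast '' S}
  | k + 1, n => {T | ∃ S ∈ projClass A k (n + 1), T = dropLast '' Sᶜ}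

/-- `T ⊆ E` is projective over `(A_m)` if it belongs to `P_k(E)` for some `k ≥ 1`
(`E` being identified with `E^1`). -/
def IsProjective {E : Type} (A : ℕ → Set E) (T : Set E) : Prop :=
  ∃ k : ℕ, {x : Fin 1 → E | x 0 ∈ T} ∈ projClass A k 1

/-- The statement of Q1 for the set `E`: for every sequence `A` of subsets of `E` there is a
sequence `B` such that every set projective over `A` lies in the sigma-algebra generated by `B`. -/
def Q1 (E : Type) : Prop :=
  ∀ A : ℕ → Set E, ∃ B : ℕ → Set E, ∀ T : Set E, IsProjective A T →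
    @MeasurableSet E (MeasurableSpace.generateFrom (range B)) T

end Pool.Agent.H13.ProjE
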