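import Pool.Agent.H13.ProjE.Defs
import Pool.Agent.H13.Symm.Roth

set_option autoImplicit false

namespace Pool.Agent.H13.ProjE

open Set Cardinal H13.Symm

/-- every family of continuum many subsets is inside a countably generated sigma-algebra -/
def Fam (E : Type) : Prop :=
  ∀ F : E → Set E, ∃ B : ℕ → Set E, ∀ y : E,
    @MeasurableSet E (MeasurableSpace.generateFrom (range B)) (F y)

theorem card_class {E : Type} (A : ℕ → Set E) (k : ℕ) : ∀ n, #(projClass A k n) ≤ 𝔠 := by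
  induction k with
  | zero =>
    intro n
    have h1 : #{S : Set (Fin (n + 1) → E) | @MeasurableSet (Fin (n + 1) → E)
        (boxAlg A (n + 1)) S} ≤ 𝔠 := by
      refine MeasurableSpace.cardinal_measurableSet_le_continuum ?_
      have : {S : Set (Fin (n + 1) → E) | ∃ m : Fin (n + 1) → ℕ,
          S = {x : Fin (n + 1) → E | ∀ i, x i ∈ A (m i)}} =
          range (fun m : Fin (n + 1) → ℕ => {x : Fin (n + 1) → E | ∀ i, x i ∈ A (m i)}) := by
        ext S
        constructor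
        · rintro ⟨m, rfl⟩; exact ⟨m, rfl⟩
        · rintro ⟨m, rfl⟩; exact ⟨m, rfl⟩
      rw [this]
      exact (Cardinal.mk_le_aleph0_iff.2 (countable_range _).to_subtype).trans
        aleph0_le_continuum
    have h2 : projClass A 0 n = (fun S => dropLast '' S) '' {S : Set (Fin (n + 1) → E) |
        @MeasurableSet (Fin (n + 1) → E) (boxAlg A (n + 1)) S} := by
      ext T
      constructor
      · rintro ⟨S, hS, rfl⟩; exact ⟨S, hS, rfl⟩
      · rintro ⟨S, hS, rfl⟩; exact ⟨S, hS, rfl⟩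
    rw [h2]
    exact Cardinal.mk_image_le.trans h1
  | succ k ih =>
    intro n
    have h2 : projClass A (k + 1) n =
        (fun S => dropLast '' Sᶜ) '' (projClass A k (n + 1)) := by
      ext T
      constructor
      · rintro ⟨S, hS, rfl⟩; exact ⟨S, hS, rfl⟩
      · rintro ⟨S, hS, rfl⟩; exact ⟨S, hS, rfl⟩
    rw [h2]
    exact Cardinal.mk_image_le.trans (ih (n + 1))

theorem card_proj {E : Type} (A : ℕ → Set E) : #{T : Set E | IsProjective A T} ≤ 𝔠 := by
  have h1 : #(⋃ k, projClass A k 1 : Set (Set (Fin 1 → E))) ≤ 𝔠 := by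
    refine (Cardinal.mk_iUnion_le _).trans ?_
    rw [Cardinal.mk_nat]
    refine (mul_le_mul' le_rfl (ciSup_le' fun k => card_class A k 1)).trans ?_
    rw [Cardinal.aleph0_mul_continuum]
  refine le_trans ?_ h1
  refine Cardinal.mk_le_of_injective (f := fun T : {T : Set E | IsProjective A T} =>
    (⟨{x : Fin 1 → E | x 0 ∈ T.1}, mem_iUnion.2 T.2⟩ :
      (⋃ k, projClass A k 1 : Set (Set (Fin 1 → E))))) ?_
  intro S T h
  have h' : {x : Fin 1 → E | x 0 ∈ S.1} = {x : Fin 1 → E | x 0 ∈ T.1} := congrArg Subtype.val h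
  apply Subtype.ext
  ext z
  exact (Set.ext_iff.1 h' (fun _ => z))

theorem fam_to_Q1 {E : Type} (hE : #E = 𝔠) (hF : Fam E) : Q1 E := by
  classical
  intro A
  have h1 := card_proj A
  rw [← hE] at h1
  obtain ⟨g⟩ : Nonempty ({T : Set E | IsProjective A T} ↪ E) := by
    rwa [← Cardinal.le_def]
  obtain ⟨B, hB⟩ := hF (fun y => if h : ∃ T : {T : Set E | IsProjective A T}, g T = y then
    (Classical.choose h).1 else ∅)
  refine ⟨B, fun T hT => ?_⟩
  have h2 := hB (g ⟨T, hT⟩)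
  have hex : ∃ T' : {T : Set E | IsProjective A T}, g T' = g ⟨T, hT⟩ := ⟨_, rfl⟩
  rw [dif_pos hex] at h2
  have h3 : Classical.choose hex = ⟨T, hT⟩ := g.injective (Classical.choose_spec hex)
  rw [h3] at h2
  exact h2

theorem Q1_to_fam {E : Type} (hE : #E = 𝔠) (hQ : Q1 E) : Fam E := by
  classical
  intro F
  obtain ⟨e⟩ : Nonempty (E ≃ ℝ) := by
    rw [← Cardinal.eq, hE, Cardinal.mk_real]
  obtain ⟨p⟩ : Nonempty (E ≃ E × E) := by
    rw [← Cardinal.eq, Cardinal.mk_prod, Cardinal.lift_id, hE, Cardinal.continuum_mul_self]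
  let G : Set (Set E) := insert (Set.univ : Set E) (insert {z | (p z).1 ∈ F (p z).2}
    (range (fun q : ℚ => {z : E | e z < q}) ∪ (range (fun q : ℚ => {z : E | e (p z).1 < q}) ∪
      range (fun q : ℚ => {z : E | e (p z).2 < q}))))
  have hG : G.Countable := by
    refine Countable.insert _ (Countable.insert _ ?_)
    exact (countable_range _).union ((countable_range _).union (countable_range _))
  obtain ⟨A, hA⟩ := hG.exists_eq_range ⟨Set.univ, Or.inl rfl⟩
  obtain ⟨B, hB⟩ := hQ A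
  refine ⟨B, fun y => hB _ ⟨0, ?_⟩⟩
  obtain ⟨m0, hm0⟩ : (Set.univ : Set E) ∈ range A := by rw [← hA]; exact Or.inl rfl
  have c1 : ∀ S ∈ G, @MeasurableSet (Fin 2 → E) (boxAlg A 2) {w | w 1 ∈ S} := by
    intro S hS
    rw [hA] at hS
    obtain ⟨m, rfl⟩ := hS
    refine MeasurableSpace.measurableSet_generateFrom ⟨![m0, m], ?_⟩
    ext w
    constructor
    · intro hw i
      fin_cases i
      · show w 0 ∈ A m0
        rw [hm0]; exact mem_univ _
      · exact hw
    · intro hw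
      exact hw 1
  have c0 : ∀ S ∈ G, @MeasurableSet (Fin 2 → E) (boxAlg A 2) {w | w 0 ∈ S} := by
    intro S hS
    rw [hA] at hS
    obtain ⟨m, rfl⟩ := hS
    refine MeasurableSpace.measurableSet_generateFrom ⟨![m, m0], ?_⟩
    ext w
    constructor
    · intro hw i
      fin_cases i
      · exact hw
      · show w 1 ∈ A m0
        rw [hm0]; exact mem_univ _
    · intro hw
      exact hw 0
  have g1 : ∀ q : ℚ, {z : E | e z < q} ∈ G := fun q =>
    Or.inr (Or.inr (Or.inl ⟨q, rfl⟩))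
  have g2 : ∀ q : ℚ, {z : E | e (p z).1 < q} ∈ G := fun q =>
    Or.inr (Or.inr (Or.inr (Or.inl ⟨q, rfl⟩)))
  have g3 : ∀ q : ℚ, {z : E | e (p z).2 < q} ∈ G := fun q =>
    Or.inr (Or.inr (Or.inr (Or.inr ⟨q, rfl⟩)))
  have g4 : {z | (p z).1 ∈ F (p z).2} ∈ G := Or.inr (Or.inl rfl)
  have hsep : ∀ u v : E, (∀ q : ℚ, e u < q ↔ e v < q) → u = v := by
    intro u v h
    by_contra hne
    have hne' : e u ≠ e v := fun h => hne (e.injective h)
    rcases lt_or_gt_of_ne hne' with h1 | h1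
    · obtain ⟨q, hq1, hq2⟩ := exists_rat_btwn h1
      exact absurd ((h q).1 hq1) (not_lt.2 hq2.le)
    · obtain ⟨q, hq1, hq2⟩ := exists_rat_btwn h1
      exact absurd ((h q).2 hq1) (not_lt.2 hq2.le)
  let S : Set (Fin 2 → E) := ({w | w 1 ∈ {z | (p z).1 ∈ F (p z).2}} ∩
    ⋂ q : ℚ, (({w | w 1 ∈ {z : E | e (p z).1 < q}} ∩ {w | w 0 ∈ {z : E | e z < q}}) ∪
      ({w | w 1 ∈ {z : E | e (p z).1 < q}}ᶜ ∩ {w | w 0 ∈ {z : E | e z < q}}ᶜ))) ∩
    ⋂ q : ℚ, (if e y < q then {w | w 1 ∈ {z : E | e (p z).2 < q}} else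
      {w | w 1 ∈ {z : E | e (p z).2 < q}}ᶜ)
  have hS : @MeasurableSet (Fin 2 → E) (boxAlg A 2) S := by
    refine MeasurableSet.inter (MeasurableSet.inter (c1 _ g4) ?_) ?_
    · refine MeasurableSet.iInter fun q => ?_
      exact ((c1 _ (g2 q)).inter (c0 _ (g1 q))).union
        ((c1 _ (g2 q)).compl.inter (c0 _ (g1 q)).compl)
    · refine MeasurableSet.iInter fun q => ?_
      by_cases h : e y < q
      · rw [if_pos h]; exact c1 _ (g3 q)
      · rw [if_neg h]; exact (c1 _ (g3 q)).compl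
  have hSmem : ∀ w : Fin 2 → E, w ∈ S ↔ (p (w 1)).1 ∈ F (p (w 1)).2 ∧ (p (w 1)).1 = w 0 ∧
      (p (w 1)).2 = y := by
    intro w
    constructor
    · rintro ⟨⟨h1, h2⟩, h3⟩
      rw [mem_iInter] at h2 h3
      refine ⟨h1, hsep _ _ fun q => ?_, hsep _ _ fun q => ?_⟩
      · rcases h2 q with h | h
        · exact ⟨fun _ => h.2, fun _ => h.1⟩
        · exact ⟨fun h' => absurd h' h.1, fun h' => absurd h' h.2⟩
      · have h4 := h3 q
        by_cases h : e y < q
        · rw [if_pos h] at h4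
          exact ⟨fun _ => h, fun _ => h4⟩
        · rw [if_neg h] at h4
          exact ⟨fun h' => absurd h' h4, fun h' => absurd h' h⟩
    · rintro ⟨h1, h2, h3⟩
      refine ⟨⟨h1, ?_⟩, ?_⟩
      · rw [mem_iInter]
        intro q
        by_cases h : e (w 0) < q
        · left
          refine ⟨?_, h⟩
          show e (p (w 1)).1 < q
          rw [h2]; exact h
        · right
          refine ⟨?_, h⟩
          show ¬ e (p (w 1)).1 < q
          rw [h2]; exact h
      · rw [mem_iInter]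
        intro q
        by_cases h : e y < q
        · rw [if_pos h]
          show e (p (w 1)).2 < q
          rw [h3]; exact h
        · rw [if_neg h]
          show ¬ e (p (w 1)).2 < q
          rw [h3]; exact h
  refine ⟨S, hS, ?_⟩
  ext x
  constructor
  · intro hx
    have hx' : x 0 ∈ F y := hx
    refine ⟨![x 0, p.symm (x 0, y)], ?_, ?_⟩
    · rw [hSmem]
      show (p (p.symm (x 0, y))).1 ∈ F (p (p.symm (x 0, y))).2 ∧
        (p (p.symm (x 0, y))).1 = x 0 ∧ (p (p.symm (x 0, y))).2 = y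
      rw [Equiv.apply_symm_apply]
      exact ⟨hx', rfl, rfl⟩
    · funext i
      fin_cases i
      rfl
  · rintro ⟨w, hw, rfl⟩
    rw [hSmem] at hw
    show w 0 ∈ F y
    rw [← hw.2.1, ← hw.2.2]
    exact hw.1

theorem rect_to_fam {E : Type} (hE : #E = 𝔠)
    (hK : ∀ Q : Set (ℝ × ℝ), @MeasurableSet (ℝ × ℝ) rc Q) : Fam E := by
  intro F
  obtain ⟨e⟩ : Nonempty (E ≃ ℝ) := by
    rw [← Cardinal.eq, hE, Cardinal.mk_real]
  obtain ⟨A, hA⟩ := sections {z : ℝ × ℝ | e.symm z.1 ∈ F (e.symm z.2)} (hK _)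
  have hmeas : @Measurable E ℝ (gen fun n => e ⁻¹' (A n)) (gen A) e := by
    refine @measurable_generateFrom E ℝ (gen fun n => e ⁻¹' (A n)) _ e ?_
    rintro _ ⟨n, rfl⟩
    exact MeasurableSpace.measurableSet_generateFrom ⟨n, rfl⟩
  refine ⟨fun n => e ⁻¹' (A n), fun y => ?_⟩
  have h7 := hmeas (hA (e y))
  have h8 : e ⁻¹' {x | (x, e y) ∈ {z : ℝ × ℝ | e.symm z.1 ∈ F (e.symm z.2)}} = F y := by
    ext x
    show e.symm (e x) ∈ F (e.symm (e y)) ↔ x ∈ F y
    rw [Equiv.symm_apply_apply, Equiv.symm_apply_apply]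
  rw [h8] at h7
  exact h7

theorem not_fam {E : Type} (hE : #E = 𝔠) (Λ : Type) (h1 : #Λ ≤ 𝔠)
    (h2 : 𝔠 < (2 : Cardinal.{0}) ^ #Λ)
    (h3 : ((2 : Cardinal.{0}) ^ #Λ).ord.cof ≤ 𝔠) : ¬ Fam E := by
  classical
  intro hF
  set μ : Cardinal.{0} := (2 : Cardinal.{0}) ^ #Λ with hμ
  have hμinf : ℵ₀ ≤ μ := aleph0_le_continuum.trans h2.le
  have hΛ : ℵ₀ ≤ #Λ := by
    by_contra hcon
    rw [not_le] at hcon
    have : μ < ℵ₀ := Cardinal.power_lt_aleph0 (Cardinal.natCast_lt_aleph0 (n := 2)) hcon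
    exact absurd hμinf (not_le.2 this)
  have hset : #(Set Λ) = μ := Cardinal.mk_set
  have hC : #(ℕ → Set Λ) = μ := by
    rw [← Cardinal.power_def, Cardinal.mk_nat, hset, hμ, ← Cardinal.power_mul,
      Cardinal.mul_aleph0_eq hΛ]
  obtain ⟨j⟩ : Nonempty (Λ ↪ E) := by
    rw [← Cardinal.le_def, hE]; exact h1
  have hP : #(μ.ord.ToType) = μ := Cardinal.mk_ord_toType _
  obtain ⟨g⟩ : Nonempty ((ℕ → Set Λ) ↪ μ.ord.ToType) := by
    rw [← Cardinal.le_def, hC, hP]
  obtain ⟨s, hs, hsc⟩ := Order.exists_cof_eq (α := μ.ord.ToType)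
  rw [Ordinal.cof_toType] at hsc
  obtain ⟨i⟩ : Nonempty (s ↪ E) := by
    rw [← Cardinal.le_def, hE, hsc]; exact h3
  let SS : (ℕ → Set Λ) → Set (Set Λ) := fun A => {S | @MeasurableSet Λ (gen A) S}
  have hSS : ∀ A, #(SS A) ≤ 𝔠 := by
    intro A
    refine MeasurableSpace.cardinal_measurableSet_le_continuum ?_
    exact (Cardinal.mk_le_aleph0_iff.2 (countable_range A).to_subtype).trans aleph0_le_continuum
  have hex : ∀ y : s, ∃ R : Set Λ, ∀ A, g A ≤ (y : μ.ord.ToType) → R ∉ SS A := by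
    intro y
    by_contra hcon
    push Not at hcon
    let I : Set (ℕ → Set Λ) := {A | g A ≤ (y : μ.ord.ToType)}
    have hI : #I < μ := by
      have ha : #I ≤ #(Iic (y : μ.ord.ToType)) :=
        Cardinal.mk_le_of_injective (f := fun A : I => (⟨g A, A.2⟩ : Iic (y : μ.ord.ToType)))
          (fun A B h => Subtype.ext (g.injective (congrArg Subtype.val h)))
      have hb : #(Iic (y : μ.ord.ToType)) ≤ #(Iio (y : μ.ord.ToType)) + 1 := by
        rw [← Iio_insert]
        exact Cardinal.mk_insert_le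
      have hc : #(Iio (y : μ.ord.ToType)) < μ := Cardinal.mk_Iio_toType_ord_lt _
      exact (ha.trans hb).trans_lt
        (Cardinal.add_lt_of_lt hμinf hc (Cardinal.one_lt_aleph0.trans_le hμinf))
    have huniv : (univ : Set (Set Λ)) ⊆ ⋃ A ∈ I, SS A := by
      intro R _
      obtain ⟨A, hA, hR⟩ := hcon R
      exact mem_biUnion (show A ∈ I from hA) hR
    have h5 : μ ≤ #(⋃ A ∈ I, SS A : Set (Set Λ)) := by
      rw [← hset, ← Cardinal.mk_univ]
      exact Cardinal.mk_le_mk_of_subset huniv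
    have h6 : #(⋃ A ∈ I, SS A : Set (Set Λ)) ≤ #I * 𝔠 := by
      refine (Cardinal.mk_biUnion_le SS I).trans ?_
      exact mul_le_mul' le_rfl (ciSup_le' fun A => hSS A)
    exact absurd (h5.trans h6) (not_le.2 (Cardinal.mul_lt_of_lt hμinf hI h2))
  choose R hR using hex
  obtain ⟨A, hA⟩ := hF (fun v => {u | ∃ x : Λ, ∃ y : s, u = j x ∧ v = i y ∧ x ∈ R y})
  obtain ⟨y, hys, hy⟩ := hs (g fun n => j ⁻¹' (A n))
  have hmeas : @Measurable Λ E (gen fun n => j ⁻¹' (A n)) (gen A) j := by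
    refine @measurable_generateFrom Λ E (gen fun n => j ⁻¹' (A n)) _ j ?_
    rintro _ ⟨n, rfl⟩
    exact MeasurableSpace.measurableSet_generateFrom ⟨n, rfl⟩
  have h7 := hmeas (hA (i ⟨y, hys⟩))
  have h8 : j ⁻¹' {u | ∃ x : Λ, ∃ y' : s, u = j x ∧ i ⟨y, hys⟩ = i y' ∧ x ∈ R y'} =
      R ⟨y, hys⟩ := by
    ext x
    constructor
    · rintro ⟨x', y', ha, hb, hx'⟩
      rw [j.injective ha, i.injective hb]
      exact hx'
    · intro hx
      exact ⟨x, ⟨y, hys⟩, rfl, rfl, hx⟩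
  rw [h8] at h7
  exact hR ⟨y, hys⟩ _ hy h7

end Pool.Agent.H13.ProjE
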